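import Pool.Agent.Run7.h172.Npp.Stm
import Pool.Agent.Helper44K9.FU.Kap

/-!
# [LD] from [LD1] and [LD2]
-/

set_option autoImplicit false

namespace Pool.Agent.Run7.h376.Npp

open Finset MeasureTheory
open Pool.Agent.Run7.h172.Npp
open scoped Pointwise

/-- the points of order at most `N` -/
def Tor (N : ℕ) : Set UnitAddCircle := ⋃ M ∈ Finset.Icc 1 N, {t : UnitAddCircle | M • t = 0}

theorem tor_finite (N : ℕ) : (Tor N).Finite := by
  unfold Tor
  refine Set.Finite.biUnion (Finset.finite_toSet _) fun M hM => ?_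
  exact AddCircle.finite_torsion 1 (Finset.mem_Icc.1 hM).1

theorem mem_tor {N : ℕ} {t : UnitAddCircle} : t ∈ Tor N ↔ ∃ M : ℕ, 1 ≤ M ∧ M ≤ N ∧ M • t = 0 := by
  unfold Tor
  simp only [Set.mem_iUnion, Finset.mem_Icc, Set.mem_ofPred_eq, exists_prop]
  constructor
  · rintro ⟨M, ⟨h1, h2⟩, h3⟩
    exact ⟨M, h1, h2, h3⟩
  · rintro ⟨M, h1, h2, h3⟩
    exact ⟨M, ⟨h1, h2⟩, h3⟩

theorem add_tor_null {E : Set UnitAddCircle} (hE : volume E = 0) (N : ℕ) : volume (E + Tor N) = 0 := by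
  have h : E + Tor N = ⋃ t ∈ Tor N, (fun x => x + t) '' E := by
    ext x
    simp only [Set.mem_add, Set.mem_iUnion, Set.mem_image, exists_prop]
    constructor
    · rintro ⟨y, hy, t, ht, rfl⟩
      exact ⟨t, ht, y, hy, rfl⟩
    · rintro ⟨t, ht, y, hy, rfl⟩
      exact ⟨y, hy, t, ht, rfl⟩
  rw [h, measure_biUnion_null_iff (tor_finite N).countable]
  intro t _
  rw [Set.image_add_right, measure_preimage_add_right]
  exact hE

theorem add_tor_order {E : Set UnitAddCircle} (hE : ∀ x ∈ E, addOrderOf x = 0) (N : ℕ) :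
    ∀ x ∈ E + Tor N, addOrderOf x = 0 := by
  intro x hx
  obtain ⟨y, hy, t, ht, rfl⟩ := Set.mem_add.1 hx
  obtain ⟨M, hM1, -, hM⟩ := mem_tor.1 ht
  rw [addOrderOf_eq_zero_iff']
  intro n hn h0
  have h1 : (M * n) • y = 0 := by
    have h2 : (M * n) • (y + t) = 0 := by rw [mul_nsmul', h0, nsmul_zero]
    have h3 : (M * n) • t = 0 := by rw [mul_nsmul, hM, nsmul_zero]
    rw [nsmul_add, h3, add_zero] at h2
    exact h2
  have h3 := addOrderOf_dvd_of_nsmul_eq_zero h1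
  rw [hE y hy, zero_dvd_iff] at h3
  have := Nat.mul_pos hM1 hn
  omega

theorem norm_coe_le' (x : ℝ) : ‖(x : UnitAddCircle)‖ ≤ |x| := by
  rw [UnitAddCircle.norm_eq]
  have := round_le x 0
  simpa using this

theorem ld (h1 : S_LD1) (h2 : S_LD2) : S_LD := by
  intro d K hd hK c hc E hEc hEv hEt
  obtain ⟨Q, hQ1, τ₁, hτ₁, k₁, hk₁⟩ := h1 d K hd hK c hc E hEc hEv hEt
  set E' : Set UnitAddCircle := E + Tor (K * Q) with hE'
  have hE'c : IsCompact E' := hEc.add (tor_finite _).isCompact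
  have hE'v : volume E' = 0 := add_tor_null hEv _
  have hE't : ∀ x ∈ E', addOrderOf x = 0 := add_tor_order hEt _
  obtain ⟨κ, hκ, hκE⟩ := Pool.Agent.Helper44K9.FU.kap E' hE'c hE't 1
  have hl : 0 < κ / 2 ^ (d + 1) := by positivity
  obtain ⟨τ₂, hτ₂, k₂, hk₂⟩ := h2 d hd c (κ / 2 ^ (d + 1)) Q hc hl E' hE'c hE'v
  refine ⟨min τ₁ (min τ₂ (κ / 4)), lt_min hτ₁ (lt_min hτ₂ (by positivity)), max k₁ k₂, ?_⟩
  intro k hk β W hW hclose
  by_contra hcon
  push Not at hcon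
  have hQB : (0 : ℝ) < ((QB k).card : ℝ) := by
    obtain ⟨p, hp1, hp2, hp3⟩ := Nat.exists_prime_lt_and_le_two_mul (2 ^ k) (by positivity)
    have : p ∈ QB k := by
      unfold QB
      rw [Finset.mem_filter, Finset.mem_Ioc, pow_succ]
      exact ⟨⟨hp2, by omega⟩, hp1⟩
    exact_mod_cast Finset.card_pos.2 ⟨p, this⟩
  obtain ⟨q, hq1, hqQ, a, ha⟩ := hk₁ k (le_trans (le_max_left _ _) hk) β W hW (by
    intro p hp
    obtain ⟨γ, hγ, m, hm1, hmK, b, hb⟩ := hclose p hp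
    exact ⟨γ, hγ, m, hm1, hmK, b, hb.trans (min_le_left _ _)⟩) hcon
  have hq0 : (0 : ℝ) < q := by exact_mod_cast hq1
  obtain ⟨θ, hθ⟩ : ∃ θ : ℝ, θ = β - a / q := ⟨_, rfl⟩
  have h2k : (0 : ℝ) < ((2 : ℝ) ^ k) ^ d := by positivity
  have hθQ : |θ| * ((2 : ℝ) ^ k) ^ d ≤ Q := by
    have e1 : |θ| ≤ |q * β - a| := by
      have e2 : (q : ℝ) * β - a = q * θ := by rw [hθ]; field_simp
      rw [e2, abs_mul, abs_of_pos hq0]
      have : (1 : ℝ) ≤ q := by exact_mod_cast hq1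
      nlinarith [abs_nonneg θ]
    have e3 := e1.trans ha
    rwa [le_div_iff₀ h2k] at e3
  -- the points are near `E'`
  have hnear : ∀ p ∈ W, ∃ x ∈ E', ‖(((p : ℝ) ^ d * θ : ℝ) : UnitAddCircle) - x‖ ≤ min τ₂ (κ / 4) := by
    intro p hp
    obtain ⟨γ, hγ, m, hm1, hmK, b, hb⟩ := hclose p hp
    have hm0 : (0 : ℝ) < m := by exact_mod_cast hm1
    obtain ⟨t, ht⟩ : ∃ t : ℝ, t = -(b : ℝ) / m - (p : ℝ) ^ d * a / q := ⟨_, rfl⟩
    have htor : (t : UnitAddCircle) ∈ Tor (K * Q) := by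
      rw [mem_tor]
      refine ⟨m * q, Nat.mul_pos hm1 hq1, Nat.mul_le_mul hmK hqQ, ?_⟩
      rw [← AddCircle.coe_nsmul, nsmul_eq_mul]
      have e : ((m * q : ℕ) : ℝ) * t = ((-(b * q) - m * (p : ℤ) ^ d * a : ℤ) : ℝ) := by
        rw [ht]
        push_cast
        field_simp
      rw [e]
      exact (AddCircle.coe_eq_zero_iff 1).2 ⟨-(b * q) - m * (p : ℤ) ^ d * a, by rw [zsmul_eq_mul, mul_one]⟩
    refine ⟨(γ : UnitAddCircle) + (t : UnitAddCircle), Set.add_mem_add hγ htor, ?_⟩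
    rw [← AddCircle.coe_add, ← AddCircle.coe_sub]
    refine (norm_coe_le' _).trans ?_
    have e1 : (p : ℝ) ^ d * θ - (γ + t) = -(m * (γ - (p : ℝ) ^ d * β) - b) / m := by
      rw [hθ, ht]
      field_simp
      ring
    rw [e1, abs_div, abs_neg, abs_of_pos hm0, div_le_iff₀ hm0]
    refine (hb.trans (min_le_right _ _)).trans ?_
    have e2 : (1 : ℝ) ≤ m := by exact_mod_cast hm1
    have e3 : 0 ≤ min τ₂ (κ / 4) := (lt_min hτ₂ (by positivity)).le
    nlinarith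
  rcases le_total (|θ| * ((2 : ℝ) ^ k) ^ d) (κ / 2 ^ (d + 1)) with hsmall | hbig
  · -- small `θ`
    have hWne : W.Nonempty := by
      rw [← Finset.card_pos]
      have : (0 : ℝ) < W.card := lt_of_lt_of_le (mul_pos hc hQB) hcon
      exact_mod_cast this
    obtain ⟨p, hp⟩ := hWne
    obtain ⟨x, hx, hxp⟩ := hnear p hp
    have hpQ := hW hp
    unfold QB at hpQ
    rw [Finset.mem_filter, Finset.mem_Ioc] at hpQ
    have hp2 : (p : ℝ) ≤ 2 * 2 ^ k := by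
      have := hpQ.1.2
      rw [pow_succ] at this
      have h' : p ≤ 2 * 2 ^ k := by omega
      exact_mod_cast h'
    have e1 : |(p : ℝ) ^ d * θ| ≤ κ / 2 := by
      rw [abs_mul, abs_of_nonneg (by positivity : (0 : ℝ) ≤ (p : ℝ) ^ d)]
      have e2 : (p : ℝ) ^ d ≤ (2 * 2 ^ k) ^ d := pow_le_pow_left₀ (Nat.cast_nonneg _) hp2 d
      calc (p : ℝ) ^ d * |θ| ≤ (2 * 2 ^ k) ^ d * |θ| := mul_le_mul_of_nonneg_right e2 (abs_nonneg _)
        _ = 2 ^ d * (|θ| * ((2 : ℝ) ^ k) ^ d) := by rw [mul_pow]; ring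
        _ ≤ 2 ^ d * (κ / 2 ^ (d + 1)) := mul_le_mul_of_nonneg_left hsmall (by positivity)
        _ = κ / 2 := by rw [pow_succ]; field_simp
    -- a representative of `x`
    obtain ⟨y, rfl⟩ := QuotientAddGroup.mk_surjective x
    have e3 : κ ≤ ‖(y : UnitAddCircle)‖ := by
      rw [UnitAddCircle.norm_eq]
      have := hκE y hx 1 le_rfl le_rfl (round y)
      simpa using this
    have e4 : ‖(y : UnitAddCircle)‖ ≤ ‖(((p : ℝ) ^ d * θ : ℝ) : UnitAddCircle) - y‖ +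
        ‖(((p : ℝ) ^ d * θ : ℝ) : UnitAddCircle)‖ := by
      rw [norm_sub_rev]
      have := norm_add_le ((y : UnitAddCircle) - (((p : ℝ) ^ d * θ : ℝ) : UnitAddCircle))
        (((p : ℝ) ^ d * θ : ℝ) : UnitAddCircle)
      rwa [sub_add_cancel] at this
    have e5 := (norm_coe_le' ((p : ℝ) ^ d * θ)).trans e1
    have e6 : ‖(((p : ℝ) ^ d * θ : ℝ) : UnitAddCircle) - y‖ ≤ κ / 4 := hxp.trans (min_le_right _ _)
    linarith
  · have := hk₂ k (le_trans (le_max_right _ _) hk) θ hbig hθQ W hW (by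
      intro p hp
      obtain ⟨x, hx, hxp⟩ := hnear p hp
      exact ⟨x, hx, hxp.trans (min_le_left _ _)⟩)
    linarith

end Pool.Agent.Run7.h376.Npp
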